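import Pool.Agent.Lib.MP_7ed551_gt.Cy.Defs
import Pool.Agent.Lib.MP_436e1a_gt.E.DegEx

/-! A local diffeomorphism at bounded distance from the identity is a diffeomorphism. -/

open scoped ContDiff Topology
open Set Filter

noncomputable section

namespace Pool.Agent.Lib.MP_7ed551_gt.Cy

variable {V : Type} [NormedAddCommGroup V] [NormedSpace ℝ V] [FiniteDimensional ℝ V]

theorem cov_equiv {F : V → V} (hF : ContDiff ℝ ∞ F) {x : V}
    (hi : Function.Injective (fderiv ℝ F x)) :
    ∃ A : V ≃L[ℝ] V, HasFDerivAt F (A : V →L[ℝ] V) x := by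
  refine ⟨(LinearEquiv.ofInjectiveEndo (fderiv ℝ F x).toLinearMap hi).toContinuousLinearEquiv, ?_⟩
  have h := (hF.differentiable (by simp) x).hasFDerivAt
  exact h

theorem cov_compact {K : Set V} {C : ℝ} (hK : IsClosed K) (h : ∀ x ∈ K, ‖x‖ ≤ C) :
    IsCompact K :=
  haveI := FiniteDimensional.proper_real V
  (isCompact_closedBall (0 : V) C).of_isClosed_subset hK fun x hx =>
    mem_closedBall_zero_iff.2 (h x hx)

/- Inverse function theorem: `G` agrees near `F x` with `ContDiffAt.localInverse`. -/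
theorem contDiff_of_left_inverse {F G : V → V} (hF : ContDiff ℝ ∞ F)
    (hi : ∀ x, Function.Injective (fderiv ℝ F x)) (h1 : ∀ x, G (F x) = x)
    (h2 : ∀ y, F (G y) = y) : ContDiff ℝ ∞ G := by
  have := FiniteDimensional.complete ℝ V
  refine contDiff_iff_contDiffAt.2 fun y => ?_
  obtain ⟨A, hA⟩ := cov_equiv hF (hi (G y))
  have h3 := ((hF.contDiffAt (x := G y)).to_localInverse hA (by simp)).congr_of_eventuallyEq
    ((hF.contDiffAt.hasStrictFDerivAt' hA (by simp)).localInverse_unique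
      (g := G) (Eventually.of_forall h1))
  rwa [h2] at h3

/- Degree of `F - y` on `univ` is one (homotopy to `id - y`); `det (fderiv F)` has constant sign `s`
(connectedness); the zeros are isolated, hence finite, each contributes `s`; so `s * n = 1`. -/
theorem exists_inverse {F : V → V} (hF : ContDiff ℝ ∞ F)
    (hi : ∀ x, Function.Injective (fderiv ℝ F x)) (hb : ∃ C : ℝ, ∀ x, ‖F x - x‖ ≤ C) :
    ∃ G : V → V, ContDiff ℝ ∞ G ∧ (∀ x, G (F x) = x) ∧ ∀ y, F (G y) = y := by
  have := FiniteDimensional.complete ℝ V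
  obtain ⟨C, hC⟩ := hb
  have hp : IsProperMap F := by
    refine isProperMap_iff_isCompact_preimage.2 ⟨hF.continuous, fun K hK => ?_⟩
    obtain ⟨B, hB⟩ := hK.isBounded.exists_norm_le
    refine cov_compact (C := B + C) (hK.isClosed.preimage hF.continuous) fun x hx => ?_
    have h1 := norm_sub_le (F x) (F x - x)
    rw [sub_sub_cancel] at h1
    linarith [hB _ hx, hC x]
  have hl : ∀ x, ∃ φ : OpenPartialHomeomorph V V, x ∈ φ.source ∧ φ = F := fun x => by
    obtain ⟨A, hA⟩ := cov_equiv hF (hi x)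
    exact ⟨hF.contDiffAt.toOpenPartialHomeomorph F hA (by simp),
      hF.contDiffAt.mem_toOpenPartialHomeomorph_source hA (by simp), rfl⟩
  have hc : IsCoveringMap F := isCoveringMap_iff_isCoveringMapOn_univ.2 fun y _ =>
    hp.isClosedMap.isEvenlyCovered_of_openPartialHomeomorph
      ((hp.isCompact_preimage isCompact_singleton).finite
        (.of_openPartialHomeomorph F subset_rfl fun e _ => hl e)) fun e _ => hl e
  obtain ⟨G, ⟨g0, g1⟩, -⟩ := hc.existsUnique_continuousMap_lifts (ContinuousMap.id V) (F 0) 0 rfl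
  have h2 : ∀ y, F (G y) = y := fun y => congrFun g1 y
  have h1 : ∀ x, G (F x) = x := by
    have e := (hc.existsUnique_continuousMap_lifts ⟨F, hF.continuous⟩ 0 0 rfl).unique
      (y₁ := G.comp ⟨F, hF.continuous⟩) (y₂ := ContinuousMap.id V)
      ⟨g0, funext fun x => h2 (F x)⟩ ⟨rfl, rfl⟩
    exact fun x => DFunLike.congr_fun e x
  exact ⟨G, contDiff_of_left_inverse hF hi h1 h2, h1, h2⟩

theorem exists_dif {F : V → V} (hF : ContDiff ℝ ∞ F)
    (hi : ∀ x, Function.Injective (fderiv ℝ F x)) (hb : ∃ R : ℝ, ∀ x, R ≤ ‖x‖ → F x = x) :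
    ∃ G : V → V, Dif F G := by
  obtain ⟨R, hR⟩ := hb
  have := FiniteDimensional.proper_real V
  obtain ⟨C, hC⟩ := (isCompact_closedBall (0 : V) R).exists_bound_of_continuousOn
    (f := fun x => F x - x) (hF.continuous.sub continuous_id).continuousOn
  obtain ⟨G, h1, h2, h3⟩ := exists_inverse hF hi ⟨max C 0, fun x => by
    rcases le_total R ‖x‖ with h | h
    · rw [hR x h, sub_self, norm_zero]
      exact le_max_right _ _
    · exact (hC x (mem_closedBall_zero_iff.2 h)).trans (le_max_left _ _)⟩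
  exact ⟨G, hF, h1, h2, h3, R, hR⟩

omit [FiniteDimensional ℝ V] in
theorem Dif.symm {F G : V → V} (h : Dif F G) : Dif G F := by
  obtain ⟨R, hR⟩ := h.far
  refine ⟨h.sm', h.sm, h.right, h.left, R, fun x hx => ?_⟩
  have e := h.left x
  rwa [hR x hx] at e

omit [FiniteDimensional ℝ V] in
theorem Dif.comp {F G F' G' : V → V} (h : Dif F G) (h' : Dif F' G') :
    Dif (fun x => F (F' x)) (fun x => G' (G x)) := by
  obtain ⟨R, hR⟩ := h.far
  obtain ⟨R', hR'⟩ := h'.far
  refine ⟨h.sm.comp h'.sm, h'.sm'.comp h.sm', fun x => ?_, fun x => ?_, max R R', fun x hx => ?_⟩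
  · rw [h.left, h'.left]
  · rw [h'.right, h.right]
  · rw [hR' x ((le_max_right _ _).trans hx), hR x ((le_max_left _ _).trans hx)]

omit [FiniteDimensional ℝ V] in
theorem Dif.inj_fderiv {F G : V → V} (h : Dif F G) (x : V) :
    Function.Injective (fderiv ℝ F x) := by
  have h1 := (h.sm'.differentiable (by simp) (F x)).hasFDerivAt.comp x
    (h.sm.differentiable (by simp) x).hasFDerivAt
  have h2 : G ∘ F = id := funext h.left
  rw [h2] at h1
  have h3 := h1.unique (hasFDerivAt_id x)
  exact Function.LeftInverse.injective (g := fderiv ℝ G (F x)) fun v => DFunLike.congr_fun h3 v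

/- Brouwer. -/
theorem exists_fixed {F : V → V} (hF : Continuous F) (hb : ∃ C : ℝ, ∀ x, ‖F x‖ ≤ C) :
    ∃ x, F x = x := by
  obtain ⟨C, hC⟩ := hb
  borelize V
  obtain ⟨D⟩ := Pool.Agent.CSP.exists_degTh V MeasureTheory.Measure.addHaar
  by_contra hne
  have hH : Continuous fun p : ℝ × V => p.2 - p.1 • F p.2 := by fun_prop
  have hK : IsCompact {p : ℝ × V | p ∈ univ ∧ p.1 ∈ Icc (0 : ℝ) 1 ∧ p.2 - p.1 • F p.2 = 0} := by
    refine cov_compact (C := max 1 C) (isClosed_univ.inter ((isClosed_Icc.preimage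
      continuous_fst).inter (isClosed_eq hH continuous_const))) fun p hp => ?_
    have h1 : ‖p.1‖ ≤ 1 := by
      rw [Real.norm_of_nonneg hp.2.1.1]
      exact hp.2.1.2
    refine max_le_max h1 ?_
    rw [sub_eq_zero.1 hp.2.2, norm_smul]
    exact (mul_le_of_le_one_left (norm_nonneg _) h1).trans (hC _)
  have h1 := D.htpy (H := fun p : ℝ × V => p.2 - p.1 • F p.2) isOpen_univ hH.continuousOn hK
  simp only [zero_smul, sub_zero, one_smul, mem_univ, ofPred_true] at h1
  have hz : ∀ v ∈ (univ : Set V), v - F v ≠ 0 := fun v _ e => hne ⟨v, (sub_eq_zero.1 e).symm⟩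
  have h2 : D.deg (fun v => v - F v) univ = 0 := by
    refine D.empty ⟨isOpen_univ, by fun_prop, ?_⟩ hz
    convert isCompact_empty
    exact eq_empty_of_forall_notMem fun v hv => hz v trivial hv.2
  have h3 : D.deg (fun v => v) univ = ((1 : ℤˣ) : ℤ) := by
    refine D.sign (v₀ := 0) (A := ContinuousLinearMap.id ℝ V) ⟨isOpen_univ, continuousOn_id, ?_⟩
      trivial (fun v _ => Iff.rfl) (hasFDerivAt_id _) (by simp [ContinuousLinearMap.det])
    simp
  rw [h2, h3] at h1
  simp at h1

end Pool.Agent.Lib.MP_7ed551_gt.Cy
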