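import Pool.Agent.Lib.MP_7ed551_gt.Cy.Defs
import Pool.Agent.Lib.MP_b71113_an.OT.CP

/-! The Cauchy transform of compactly supported functions.  Models: `MP_f2cf74_an/CT1`, `CT2`
(the same facts for supports in the disc of radius two). -/

open scoped ContDiff Topology
open Set Filter Metric MeasureTheory

noncomputable section

namespace Pool.Agent.Lib.MP_7ed551_gt.Cy

open Pool.Agent.Lib.MP_ccffa6_gt (px py)

/-- The Cauchy transform. -/
def cT (q : ℂ → ℂ) (z : ℂ) : ℂ := ∫ w : ℂ, ((Real.pi : ℂ) * w)⁻¹ * q (z - w)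

theorem cT_eq (q : ℂ → ℂ) (z : ℂ) : cT q z = ∫ s : ℂ, ((Real.pi : ℂ) * (z - s))⁻¹ * q s := by
  rw [cT, ← integral_sub_left_eq_self (fun s => ((Real.pi : ℂ) * (z - s))⁻¹ * q s) volume z]
  simp only [sub_sub_cancel]

theorem ct_norm (w : ℂ) : ‖((Real.pi : ℂ) * w)⁻¹‖ = Real.pi⁻¹ * ‖w‖⁻¹ := by
  rw [norm_inv, norm_mul, Complex.norm_real, Real.norm_of_nonneg Real.pi_pos.le, mul_inv]

theorem ct_pi : Real.pi⁻¹ ≤ 1 := inv_le_one_of_one_le₀ (by linarith [Real.two_le_pi])

theorem ct_loc : LocallyIntegrable fun w : ℂ => ((Real.pi : ℂ) * w)⁻¹ := by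
  refine locallyIntegrable_of_norm_le_rpow (C := Real.pi⁻¹) (α := 1) (by simp) (by simp)
    (Eventually.of_forall fun w => ?_) ?_
  · rw [Real.rpow_neg_one, ct_norm]
  · exact (measurable_const.mul measurable_id).inv.aestronglyMeasurable

theorem ct_conv (q : ℂ → ℂ) : cT q = convolution (fun w : ℂ => ((Real.pi : ℂ) * w)⁻¹) q
    (ContinuousLinearMap.mul ℝ ℂ) volume := rfl

theorem ct_int {q : ℂ → ℂ} (hq : Continuous q) (hc : HasCompactSupport q) (z : ℂ) :
    Integrable fun w : ℂ => ((Real.pi : ℂ) * w)⁻¹ * q (z - w) :=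
  hc.convolutionExists_right (ContinuousLinearMap.mul ℝ ℂ) ct_loc hq z

theorem ct_int' {q : ℂ → ℂ} (hq : Continuous q) (hc : HasCompactSupport q) (z : ℂ) :
    Integrable fun s : ℂ => ((Real.pi : ℂ) * (z - s))⁻¹ * q s := by
  simpa only [sub_sub_cancel] using (ct_int hq hc z).comp_sub_left z

theorem ct_eq_CT (q : ℂ → ℂ) (z : ℂ) : cT q z = NapOT.CT q z := by
  rw [cT_eq, NapOT.CT, ← integral_const_mul]
  refine integral_congr_ae (Eventually.of_forall fun s => ?_)
  simp only [mul_inv, div_eq_mul_inv]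
  ring


theorem contDiff_cT {q : ℂ → ℂ} (hq : ContDiff ℝ ∞ q) (hc : HasCompactSupport q) :
    ContDiff ℝ ∞ (cT q) := hc.contDiff_convolution_right (ContinuousLinearMap.mul ℝ ℂ) ct_loc hq

/- Cauchy-Pompeiu. -/
theorem cT_dbar {q : ℂ → ℂ} (hq : ContDiff ℝ 1 q) (hc : HasCompactSupport q) (z : ℂ) :
    cT (dbar q) z = q z := (ct_eq_CT _ z).trans (NapOT.cp_smooth hq hc z)

theorem ct_fderiv {q : ℂ → ℂ} (hq : ContDiff ℝ 1 q) (hc : HasCompactSupport q) (z w : ℂ) :
    fderiv ℝ (cT q) z w = cT (fun s => fderiv ℝ q s w) z := by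
  rw [ct_conv, (hc.hasFDerivAt_convolution_right (ContinuousLinearMap.mul ℝ ℂ) ct_loc hq z).fderiv,
    convolution_precompR_apply _ ct_loc (hc.fderiv ℝ) (hq.continuous_fderiv one_ne_zero), ct_conv]


theorem dbar_cT {q : ℂ → ℂ} (hq : ContDiff ℝ ∞ q) (hc : HasCompactSupport q) (z : ℂ) :
    dbar (cT q) z = q z := by
  have h1 : ContDiff ℝ 1 q := hq.of_le (by simp)
  have h : ∀ v : ℂ, Integrable fun w : ℂ => ((Real.pi : ℂ) * w)⁻¹ * fderiv ℝ q (z - w) v :=
    fun v => ct_int (q := fun s => fderiv ℝ q s v)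
      ((h1.continuous_fderiv one_ne_zero).clm_apply continuous_const) (hc.fderiv_apply ℝ v) z
  rw [← cT_dbar h1 hc z, dbar, px, py, ct_fderiv h1 hc, ct_fderiv h1 hc]
  unfold cT
  rw [← integral_const_mul, ← integral_add (h 1) ((h _).const_mul _), ← integral_div]
  refine integral_congr_ae (Eventually.of_forall fun w => ?_)
  simp only [dbar, px, py]
  ring

theorem ct_ball {R : ℝ} (hR : 0 ≤ R) :
    ∫ w : ℂ, (ball (0 : ℂ) R).indicator (fun w => ‖((Real.pi : ℂ) * w)⁻¹‖) w = 2 * R := by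
  have h1 : ∀ w : ℂ, (ball (0 : ℂ) R).indicator (fun w => ‖((Real.pi : ℂ) * w)⁻¹‖) w =
      (Iio R).indicator (fun y => Real.pi⁻¹ * y⁻¹) ‖w‖ := by
    intro w
    by_cases hw : ‖w‖ < R
    · rw [indicator_of_mem (mem_ball_zero_iff.2 hw), indicator_of_mem (mem_Iio.2 hw), ct_norm]
    · rw [indicator_of_notMem fun h => hw (mem_ball_zero_iff.1 h),
        indicator_of_notMem fun h => hw (mem_Iio.1 h)]
  have h2 : EqOn (fun y : ℝ => y ^ (2 - 1) • (Iio R).indicator (fun y => Real.pi⁻¹ * y⁻¹) y)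
      ((Iio R).indicator fun _ => Real.pi⁻¹) (Ioi 0) := by
    intro y hy
    have h0 : y ≠ 0 := (mem_Ioi.1 hy).ne'
    by_cases h : y ∈ Iio R
    · simp only [indicator_of_mem h, smul_eq_mul, Nat.add_one_sub_one, pow_one]
      field_simp
    · simp only [indicator_of_notMem h, smul_zero]
  simp only [h1]
  rw [integral_fun_norm_addHaar, Complex.finrank_real_complex,
    setIntegral_congr_fun measurableSet_Ioi h2, setIntegral_indicator measurableSet_Iio,
    Ioi_inter_Iio, setIntegral_const, Real.volume_real_Ioo_of_le hR, Measure.real,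
    Complex.volume_ball]
  have hp := Real.pi_pos.ne'
  simp
  field_simp


theorem norm_cT_le {q : ℂ → ℂ} {c : ℂ} {R m : ℝ} (hR : 0 ≤ R) (hs : ∀ z, R < ‖z - c‖ → q z = 0)
    (hm : ∀ z, ‖q z‖ ≤ m) (z : ℂ) : ‖cT q z‖ ≤ 4 * R * m := by
  have hm0 : 0 ≤ m := (norm_nonneg _).trans (hm 0)
  rcases hR.eq_or_lt with rfl | hR0
  · rw [cT_eq, integral_eq_zero_of_ae]
    · simp
    · filter_upwards [compl_mem_ae_iff.2 (measure_singleton c)] with s hs'
      rw [hs s (norm_pos_iff.2 (sub_ne_zero.2 hs')), mul_zero, Pi.zero_apply]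
  have h1 : Integrable ((ball (0 : ℂ) R).indicator fun w : ℂ => ‖((Real.pi : ℂ) * w)⁻¹‖) :=
    (integrable_indicator_iff measurableSet_ball).2
      ((ct_loc.integrableOn_isCompact (isCompact_closedBall 0 R)).mono_set
        ball_subset_closedBall).norm
  have h2 : Integrable ((closedBall (z - c) R).indicator fun _ : ℂ => Real.pi⁻¹ * R⁻¹) :=
    (integrable_indicator_iff measurableSet_closedBall).2
      (integrableOn_const (isCompact_closedBall _ R).measure_lt_top.ne)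
  have h3 : Integrable fun w => ((ball (0 : ℂ) R).indicator
      (fun w : ℂ => ‖((Real.pi : ℂ) * w)⁻¹‖) w +
        (closedBall (z - c) R).indicator (fun _ : ℂ => Real.pi⁻¹ * R⁻¹) w) * m :=
    (h1.add h2).mul_const m
  have hp := Real.pi_pos
  refine (norm_integral_le_of_norm_le h3 (Eventually.of_forall fun w => ?_)).trans ?_
  · have p1 : 0 ≤ (ball (0 : ℂ) R).indicator (fun w : ℂ => ‖((Real.pi : ℂ) * w)⁻¹‖) w :=
      indicator_nonneg (fun _ _ => norm_nonneg _) w
    have p2 : 0 ≤ (closedBall (z - c) R).indicator (fun _ : ℂ => Real.pi⁻¹ * R⁻¹) w :=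
      indicator_nonneg (fun _ _ => by positivity) w
    by_cases hw : w ∈ closedBall (z - c) R
    · rw [norm_mul]
      refine mul_le_mul ?_ (hm _) (norm_nonneg _) (add_nonneg p1 p2)
      by_cases hw' : w ∈ ball (0 : ℂ) R
      · rw [indicator_of_mem hw']
        exact le_add_of_nonneg_right p2
      · rw [indicator_of_mem hw, ct_norm]
        refine le_trans ?_ (le_add_of_nonneg_left p1)
        exact mul_le_mul_of_nonneg_left
          (inv_anti₀ hR0 (not_lt.1 fun h => hw' (mem_ball_zero_iff.2 h))) (by positivity)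
    · have h4 : R < ‖z - w - c‖ := by
        rw [sub_right_comm]
        exact not_le.1 fun h => hw (mem_closedBall_iff_norm'.2 h)
      rw [hs _ h4, mul_zero, norm_zero]
      exact mul_nonneg (add_nonneg p1 p2) hm0
  · rw [integral_mul_const, integral_add h1 h2, integral_indicator_const _ measurableSet_closedBall,
      ct_ball hR, Measure.real, Complex.volume_closedBall]
    refine mul_le_mul_of_nonneg_right ?_ hm0
    have h5 : R ^ 2 * Real.pi * (Real.pi⁻¹ * R⁻¹) = R := by field_simp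
    simp only [ENNReal.toReal_mul, ENNReal.toReal_pow, ENNReal.toReal_ofReal hR,
      ENNReal.coe_toReal, NNReal.coe_real_pi, smul_eq_mul, h5]
    linarith

theorem ct_diff {ρ δ : ℝ} (hρ : 0 < ρ) (hδ : δ ≤ ρ / 2) {z z' s : ℂ} (hz : ‖z - z'‖ ≤ δ)
    (hs : ρ < ‖s - z‖) :
    ‖((Real.pi : ℂ) * (z - s))⁻¹ - ((Real.pi : ℂ) * (z' - s))⁻¹‖ ≤ 2 * δ / ρ ^ 2 := by
  rw [norm_sub_rev] at hs
  have h1 : ρ / 2 ≤ ‖z' - s‖ := by
    have h2 := norm_sub_le_norm_sub_add_norm_sub z z' s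
    linarith
  have n1 : z - s ≠ 0 := norm_pos_iff.1 (hρ.trans hs)
  have n2 : z' - s ≠ 0 := norm_pos_iff.1 ((half_pos hρ).trans_le h1)
  have hp : (Real.pi : ℂ) ≠ 0 := Complex.ofReal_ne_zero.2 Real.pi_ne_zero
  have e : ((Real.pi : ℂ) * (z - s))⁻¹ - ((Real.pi : ℂ) * (z' - s))⁻¹ =
      (Real.pi : ℂ)⁻¹ * ((z' - z) / ((z - s) * (z' - s))) := by
    field_simp
    ring
  have h0 : 0 ≤ δ := (norm_nonneg _).trans hz
  rw [e, norm_mul, norm_inv, Complex.norm_real, Real.norm_of_nonneg Real.pi_pos.le, norm_div,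
    norm_mul, norm_sub_rev z' z]
  refine (mul_le_of_le_one_left (by positivity) ct_pi).trans ?_
  calc ‖z - z'‖ / (‖z - s‖ * ‖z' - s‖) ≤ δ / (ρ * (ρ / 2)) :=
        div_le_div₀ h0 hz (by positivity) (mul_le_mul hs.le h1 (by positivity) (norm_nonneg _))
    _ = 2 * δ / ρ ^ 2 := by field_simp


/- Split `q` with the indicator of `ball z (2 * √d)`, `d = ‖z - z'‖`; or use
`‖1/(z-s) - 1/(z'-s)‖ ≤ 2 d / ‖z - s‖ ^ 2` for `‖z - s‖ ≥ 2 d`. -/
theorem cT_modulus (R : ℝ) {ε : ℝ} (hε : 0 < ε) : ∃ δ : ℝ, 0 < δ ∧ ∀ (q : ℂ → ℂ) (m : ℝ),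
    Continuous q → (∀ z, R < ‖z‖ → q z = 0) → (∀ z, ‖q z‖ ≤ m) →
    ∀ z z', ‖z - z'‖ ≤ δ → ‖cT q z - cT q z'‖ ≤ ε * m := by
  obtain ⟨A, hA⟩ : ∃ A, A = volume.real (closedBall (0 : ℂ) R) := ⟨_, rfl⟩
  have hA0 : 0 ≤ A := hA ▸ measureReal_nonneg
  obtain ⟨ρ, hρ⟩ : ∃ ρ, ρ = ε / 16 := ⟨_, rfl⟩
  have hρ0 : 0 < ρ := hρ ▸ by positivity
  obtain ⟨δ, hδ⟩ : ∃ δ, δ = min (ρ / 2) (ε * ρ ^ 2 / (4 * (A + 1))) := ⟨_, rfl⟩
  have hδ0 : 0 < δ := hδ ▸ lt_min (by positivity) (by positivity)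
  refine ⟨δ, hδ0, fun q m hq hs hm z z' hz => ?_⟩
  have hm0 : 0 ≤ m := (norm_nonneg _).trans (hm 0)
  have hc : HasCompactSupport q := HasCompactSupport.intro (isCompact_closedBall (0 : ℂ) R)
    fun s h => hs s (not_le.1 fun h' => h (mem_closedBall_zero_iff.2 h'))
  have hB : MeasurableSet (closedBall z ρ) := measurableSet_closedBall
  have h1 : ∀ y, ‖cT ((closedBall z ρ).indicator q) y‖ ≤ 4 * ρ * m := fun y =>
    norm_cT_le (c := z) hρ0.le
      (fun s h => indicator_of_notMem (fun h' => h.not_ge (mem_closedBall_iff_norm.1 h')) _)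
      (fun s => (norm_indicator_le_norm_self q s).trans (hm s)) y
  have h2 : ∀ y, cT q y = cT ((closedBall z ρ).indicator q) y +
      ∫ s in (closedBall z ρ)ᶜ, ((Real.pi : ℂ) * (y - s))⁻¹ * q s := fun y => by
    rw [cT_eq, cT_eq, ← integral_add_compl hB (ct_int' hq hc y), ← integral_indicator hB]
    simp only [indicator_mul_right]
  have h3 : ‖(∫ s in (closedBall z ρ)ᶜ, ((Real.pi : ℂ) * (z - s))⁻¹ * q s) -
      ∫ s in (closedBall z ρ)ᶜ, ((Real.pi : ℂ) * (z' - s))⁻¹ * q s‖ ≤ A * (2 * δ / ρ ^ 2 * m) := by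
    have h4 : Integrable ((closedBall (0 : ℂ) R).indicator fun _ : ℂ => 2 * δ / ρ ^ 2 * m) :=
      (integrable_indicator_iff measurableSet_closedBall).2
        (integrableOn_const (isCompact_closedBall _ R).measure_lt_top.ne)
    rw [← integral_sub (ct_int' hq hc z).integrableOn (ct_int' hq hc z').integrableOn,
      ← integral_indicator hB.compl, hA, ← smul_eq_mul,
      ← integral_indicator_const _ measurableSet_closedBall]
    refine norm_integral_le_of_norm_le h4 (Eventually.of_forall fun s => ?_)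
    have p : 0 ≤ (closedBall (0 : ℂ) R).indicator (fun _ : ℂ => 2 * δ / ρ ^ 2 * m) s :=
      indicator_nonneg (fun _ _ => by positivity) s
    by_cases h5 : s ∈ (closedBall z ρ)ᶜ
    · rw [indicator_of_mem h5, ← sub_mul, norm_mul]
      by_cases h6 : s ∈ closedBall (0 : ℂ) R
      · rw [indicator_of_mem h6]
        exact mul_le_mul (ct_diff hρ0 (hδ ▸ min_le_left _ _) hz
          (not_le.1 fun h => h5 (mem_closedBall_iff_norm.2 h))) (hm s) (norm_nonneg _)
          (by positivity)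
      · rw [hs s (not_le.1 fun h => h6 (mem_closedBall_zero_iff.2 h)), norm_zero, mul_zero]
        exact p
    · rw [indicator_of_notMem h5, norm_zero]
      exact p
  have h7 : A * (2 * δ / ρ ^ 2) ≤ ε / 2 := by
    have h8 : δ * (4 * (A + 1)) ≤ ε * ρ ^ 2 :=
      (le_div_iff₀ (by positivity)).1 (hδ ▸ min_le_right _ _)
    rw [← mul_div_assoc, div_le_iff₀ (by positivity)]
    nlinarith
  rw [h2 z, h2 z', add_sub_add_comm]
  have h9 := norm_sub_le (cT ((closedBall z ρ).indicator q) z) (cT ((closedBall z ρ).indicator q) z')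
  have h10 := mul_le_mul_of_nonneg_right h7 hm0
  refine (norm_add_le _ _).trans ?_
  have h11 : 4 * ρ * m = ε * m / 4 := by
    rw [hρ]
    ring
  linarith [h1 z, h1 z']

theorem tendsto_cT {q : ℂ → ℂ} (hq : Continuous q) (hc : HasCompactSupport q) :
    Tendsto (cT q) (cocompact ℂ) (𝓝 0) := by
  obtain ⟨R, hR⟩ := NapOT.cp_radius hc
  have hi := (hq.integrable_of_hasCompactSupport hc (μ := volume)).norm
  have h1 : Tendsto (fun z : ℂ => ‖z‖ - R) (cocompact ℂ) atTop :=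
    tendsto_atTop_add_const_right _ (-R) tendsto_norm_cocompact_atTop
  refine squeeze_zero_norm' ?_ ((tendsto_const_nhds (x := ∫ s, ‖q s‖)).div_atTop h1)
  filter_upwards [h1.eventually_gt_atTop 0] with z hz
  rw [cT_eq, ← integral_div]
  refine norm_integral_le_of_norm_le (hi.div_const _) (Eventually.of_forall fun s => ?_)
  rcases lt_or_ge R ‖s‖ with hs | hs
  · simp [(hR s hs).1]
  · rw [norm_mul, ct_norm, mul_comm, div_eq_mul_inv]
    refine mul_le_mul_of_nonneg_left ((mul_le_of_le_one_left (by positivity) ct_pi).trans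
      (inv_anti₀ hz ?_)) (norm_nonneg _)
    have h3 := norm_sub_norm_le z s
    linarith

theorem differentiableAt_of_dbar {f : ℂ → ℂ} {z : ℂ} (hf : DifferentiableAt ℝ f z)
    (h : dbar f z = 0) : DifferentiableAt ℂ f z := by
  refine differentiableAt_complex_iff_differentiableAt_real.2 ⟨hf, ?_⟩
  rw [dbar, px, py] at h
  rw [smul_eq_mul]
  linear_combination (-2 * Complex.I) * h + fderiv ℝ f z Complex.I * Complex.I_mul_I

theorem dbar_of_differentiableAt {f : ℂ → ℂ} {z : ℂ} (hf : DifferentiableAt ℂ f z) :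
    dbar f z = 0 := by
  rw [dbar, px, py, (differentiableAt_complex_iff_differentiableAt_real.1 hf).2, smul_eq_mul]
  linear_combination fderiv ℝ f z 1 / 2 * Complex.I_mul_I

end Pool.Agent.Lib.MP_7ed551_gt.Cy
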