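import Pool.Agent.Lib.MP_7ed551_gt.Cy.N.Wn3
import Pool.Agent.Lib.MP_7ed551_gt.Cy.N.Mass
import Pool.Agent.Lib.MP_7ed551_gt.Cy.IfaceF
import Pool.Agent.Lib.MP_ccffa6_gt.T.Base0

/-! The sharp energy bound for a leaf. -/

open scoped ContDiff Topology
open Set Filter Metric MeasureTheory Real

noncomputable section

namespace Pool.Agent.Lib.MP_7ed551_gt.Cy

open Pool.Agent.Lib.MP_ccffa6_gt (Form1 dF pb px py JHol dens dF_apply dens_eq
  differentiableAt_of_cr cr_of_hasDerivAt norm_px_le norm_py_le)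

theorem Leaf.hasDerivAt {J : E → E →L[ℝ] E} {u : ℂ → E} {c : ℂ} (h : Leaf J u c) {ζ : ℂ}
    (hJ : J (u ζ) = J0) : HasDerivAt u (px u ζ) ζ :=
  differentiableAt_of_cr (h.sm.differentiable (by simp) ζ) (by rw [(h.hol ζ trivial).1, hJ]; rfl)

theorem Leaf.tendsto_fst {J : E → E →L[ℝ] E} {u : ℂ → E} {c : ℂ} (h : Leaf J u c) :
    Tendsto (fun ζ => ‖(u ζ).1‖) (cocompact ℂ) atTop := by
  refine tendsto_atTop_mono' _ ?_
    (tendsto_atTop_add_const_right _ (-1) tendsto_norm_cocompact_atTop)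
  filter_upwards [h.lim.eventually (ball_mem_nhds 0 one_pos)] with ζ hζ
  have h1 := (norm_fst_le (u ζ - (ζ, c))).trans_lt (mem_ball_zero_iff.mp hζ)
  have h2 := norm_sub_norm_le ζ (u ζ).1
  rw [norm_sub_rev] at h2
  simp only [Prod.fst_sub] at h1
  linarith

theorem Leaf.eventually_notMem {J : E → E →L[ℝ] E} {u : ℂ → E} {c : ℂ} (h : Leaf J u c)
    {K : Set E} (hK : IsCompact K) : ∀ᶠ ζ in cocompact ℂ, u ζ ∉ K := by
  obtain ⟨R, hR⟩ := hK.isBounded.exists_norm_le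
  filter_upwards [h.tendsto_fst.eventually_gt_atTop R] with ζ hζ hm
  exact absurd ((norm_fst_le _).trans (hR _ hm)) hζ.not_ge

theorem exists_radius {p : ℂ → Prop} (h : ∀ᶠ ζ in cocompact ℂ, p ζ) :
    ∃ R : ℝ, 0 < R ∧ ∀ ζ, R ≤ ‖ζ‖ → p ζ := by
  rw [← Metric.cobounded_eq_cocompact, ← comap_norm_atTop, eventually_comap,
    eventually_atTop] at h
  obtain ⟨R, hR⟩ := h
  exact ⟨max R 1, lt_max_of_lt_right one_pos, fun ζ hζ => hR _ ((le_max_left _ _).trans hζ) ζ rfl⟩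

theorem Leaf.decay {J : E → E →L[ℝ] E} {K : Set E} (hK : IsCompact K) (hJ : ∀ x, x ∉ K → J x = J0)
    {u : ℂ → E} {c : ℂ} (h : Leaf J u c) : ∃ C R : ℝ, 0 < R ∧ ∀ ζ, R ≤ ‖ζ‖ →
      DifferentiableAt ℂ u ζ ∧ ‖u ζ - (ζ, c)‖ ≤ C / ‖ζ‖ ∧ ‖deriv u ζ - (1, 0)‖ ≤ C / ‖ζ‖ ^ 2 := by
  have hd : ∀ᶠ ζ in cocompact ℂ, DifferentiableAt ℂ u ζ :=
    (h.eventually_notMem hK).mono fun ζ hζ => (h.hasDerivAt (hJ _ hζ)).differentiableAt
  have i1 : Tendsto (fun t : ℂ => t⁻¹) (𝓝[≠] 0) (cocompact ℂ) :=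
    Metric.cobounded_eq_cocompact (α := ℂ) ▸ tendsto_inv₀_nhdsNE_zero
  have i2 : Tendsto (fun t : ℂ => t⁻¹) (cocompact ℂ) (𝓝 0) :=
    Metric.cobounded_eq_cocompact (α := ℂ) ▸ tendsto_inv₀_cobounded
  set g : ℂ → E := Function.update (fun t => u t⁻¹ - (t⁻¹, c)) 0 0 with hg
  have g0 : g 0 = 0 := Function.update_self ..
  have g1 : ∀ t, t ≠ 0 → g t = u t⁻¹ - (t⁻¹, c) := fun t ht => Function.update_of_ne ht ..
  have ga : AnalyticAt ℂ g 0 := by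
    refine Complex.analyticAt_of_differentiable_on_punctured_nhds_of_continuousAt ?_
      (continuousAt_update_same.mpr (h.lim.comp i1))
    filter_upwards [i1.eventually hd, self_mem_nhdsWithin] with t h1 (h2 : t ≠ 0)
    have h3 : DifferentiableAt ℂ (fun t : ℂ => t⁻¹) t := differentiableAt_inv h2
    refine DifferentiableAt.congr_of_eventuallyEq
      ((h1.comp t h3).sub (h3.prodMk (differentiableAt_const c))) ?_
    filter_upwards [isOpen_ne.mem_nhds h2] with s hs using g1 s hs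
  obtain ⟨C1, h1⟩ := ga.differentiableAt.isBigO_sub.bound
  have h2 : ∀ᶠ t in 𝓝 (0 : ℂ), ‖deriv g t‖ < ‖deriv g 0‖ + 1 :=
    ga.deriv.continuousAt.norm.eventually_lt continuousAt_const (lt_add_one _)
  obtain ⟨R, R0, hR⟩ := exists_radius (hd.and (i2.eventually
    (h1.and (h2.and ga.eventually_analyticAt))))
  refine ⟨max C1 (‖deriv g 0‖ + 1), R, R0, fun ζ hζ => ?_⟩
  obtain ⟨a1, a2, a3, a4⟩ := hR ζ hζ
  have z0 : 0 < ‖ζ‖ := R0.trans_le hζ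
  have z1 : ζ ≠ 0 := norm_pos_iff.mp z0
  refine ⟨a1, ?_, ?_⟩
  · rw [g0, sub_zero, sub_zero, g1 _ (inv_ne_zero z1), inv_inv, norm_inv] at a2
    rw [div_eq_mul_inv]
    exact a2.trans (by gcongr; exact le_max_left _ _)
  · have e : u =ᶠ[𝓝 ζ] fun s => (s, c) + g s⁻¹ := by
      filter_upwards [isOpen_ne.mem_nhds z1] with s hs
      rw [g1 _ (inv_ne_zero hs), inv_inv, add_sub_cancel]
    have d := ((hasDerivAt_id ζ).prodMk (hasDerivAt_const ζ c)).add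
      (a4.differentiableAt.hasDerivAt.scomp ζ (hasDerivAt_inv z1))
    rw [e.deriv_eq, show deriv (fun s => (s, c) + g s⁻¹) ζ = _ from d.deriv, add_sub_cancel_left,
      norm_smul, norm_neg, norm_inv, norm_pow, div_eq_inv_mul]
    gcongr
    exact a3.le.trans (le_max_right _ _)

theorem exists_profile {s t : ℝ} (h : s < t) : ∃ b : ℝ → ℝ, ContDiff ℝ ∞ b ∧
    (∀ x, x ≤ s → b x = 0) ∧ (∀ x, t ≤ x → b x = (x - t) / 2) ∧ ∀ x, deriv b x ≤ 1 / 2 := by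
  have h0 := sub_pos.mpr h
  set θ : ℝ → ℝ := fun x => smoothTransition ((x - s) / (t - s)) with hθ
  have a1 : ContDiff ℝ ∞ θ := smoothTransition.contDiff.comp (by fun_prop)
  have a2 : Monotone θ := fun x y hxy => smoothTransition.monotone (by gcongr)
  have a3 : ∀ x, t ≤ x → θ x = 1 := fun x hx =>
    smoothTransition.one_of_one_le ((one_le_div h0).mpr (by linarith))
  refine ⟨fun x => (x - t) / 2 * θ x, by fun_prop, fun x hx => ?_, fun x hx => ?_, fun x => ?_⟩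
  · simp only [show θ x = 0 from smoothTransition.zero_of_nonpos
      (div_nonpos_of_nonpos_of_nonneg (by linarith) h0.le), mul_zero]
  · simp only [a3 x hx, mul_one]
  · have d := (((hasDerivAt_id x).sub_const t).div_const 2).mul
      (a1.differentiable (by simp) x).hasDerivAt
    rw [show deriv (fun x => (x - t) / 2 * θ x) x = _ from d.deriv]
    have b1 : θ x ≤ 1 := smoothTransition.le_one _
    have b2 : (x - t) * deriv θ x ≤ 0 := by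
      rcases le_or_gt x t with hx | hx
      · exact mul_nonpos_of_nonpos_of_nonneg (by linarith) a2.deriv_nonneg
      · have : θ =ᶠ[𝓝 x] fun _ => 1 := (eventually_gt_nhds hx).mono fun y hy => a3 y hy.le
        rw [this.deriv_eq, deriv_const, mul_zero]
    simp only [id]
    linarith

theorem exists_cut_scale : ∃ M : ℝ, 0 ≤ M ∧ ∀ ρ : ℝ, 0 < ρ → ∃ χ : ℂ → ℝ, Bmp χ ∧ (∀ ζ, 0 ≤ χ ζ) ∧
    (∀ ζ, ‖ζ‖ < ρ → χ ζ = 1) ∧ (∀ ζ ∈ Kd χ, ρ ≤ ‖ζ‖ ∧ ‖ζ‖ ≤ 2 * ρ) ∧ ∀ ζ, ‖gr χ ζ‖ ≤ M / ρ := by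
  let b : ContDiffBump (0 : ℂ) := ⟨1, 2, one_pos, one_lt_two⟩
  have b1 : ContDiff ℝ ∞ b := b.contDiff
  obtain ⟨M, hM⟩ := (b1.continuous_fderiv (by simp)).bounded_above_of_compact_support
    (b.hasCompactSupport.fderiv ℝ)
  have M0 : 0 ≤ M := (norm_nonneg _).trans (hM 0)
  refine ⟨2 * M, by positivity, fun ρ hρ => ?_⟩
  have n1 : ∀ ζ : ℂ, ‖ρ⁻¹ • ζ‖ = ‖ζ‖ / ρ := fun ζ => by
    rw [norm_smul, norm_inv, Real.norm_of_nonneg hρ.le, div_eq_inv_mul]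
  have o1 : ∀ ζ : ℂ, ‖ζ‖ < ρ → b (ρ⁻¹ • ζ) = 1 := fun ζ hζ =>
    b.one_of_mem_closedBall (by rw [mem_closedBall_zero_iff, n1]; exact (div_le_one hρ).mpr hζ.le)
  have o2 : ∀ ζ : ℂ, 2 * ρ < ‖ζ‖ → b (ρ⁻¹ • ζ) = 0 := fun ζ hζ =>
    b.zero_of_le_dist (by rw [dist_zero_right, n1]; exact (le_div_iff₀ hρ).mpr hζ.le)
  refine ⟨fun ζ => b (ρ⁻¹ • ζ), ⟨b1.comp (by fun_prop), ?_⟩, fun ζ => b.nonneg, o1, fun ζ hζ => ?_,
    fun ζ => ?_⟩
  · exact HasCompactSupport.intro (isCompact_closedBall 0 (2 * ρ)) fun ζ hζ =>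
      o2 ζ (by simpa using hζ)
  · constructor <;> refine le_of_not_gt fun h => ?_
    · exact notMem_kd ((continuous_norm.continuousAt.eventually_lt continuousAt_const h).mono o1) hζ
    · exact notMem_kd ((continuousAt_const.eventually_lt continuous_norm.continuousAt h).mono o2) hζ
  · have d : ‖fderiv ℝ (fun ζ : ℂ => b (ρ⁻¹ • ζ)) ζ‖ ≤ M / ρ := by
      rw [fderiv_comp_smul, norm_smul, norm_inv, Real.norm_of_nonneg hρ.le, div_eq_inv_mul]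
      gcongr
      exact hM _
    refine (norm_add_le _ _).trans ?_
    rw [norm_mul, Complex.norm_I, one_mul, Complex.norm_real, Complex.norm_real, mul_div_assoc]
    linarith [norm_px_le (fun ζ : ℂ => b (ρ⁻¹ • ζ)) ζ, norm_py_le (fun ζ : ℂ => b (ρ⁻¹ • ζ)) ζ]

theorem gr_comp_normSq {b : ℝ → ℝ} {f : ℂ → ℂ} {ζ f' : ℂ} (hb : Differentiable ℝ b)
    (hf : HasDerivAt f f' ζ) (h0 : f ζ ≠ 0) :
    (gr (fun ζ => b (‖f ζ‖ ^ 2)) ζ * (f' / f ζ)).re = 2 * deriv b (‖f ζ‖ ^ 2) * ‖f'‖ ^ 2 := by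
  have d := (hb _).hasDerivAt.comp_hasFDerivAt ζ hf.complexToReal_fderiv.norm_sq
  have e : gr (fun ζ => b (‖f ζ‖ ^ 2)) ζ =
      2 * deriv b (‖f ζ‖ ^ 2) * (f ζ * (starRingEnd ℂ) f') := by
    rw [gr, px, py, show fderiv ℝ (fun ζ => b (‖f ζ‖ ^ 2)) ζ = _ from d.fderiv]
    apply Complex.ext <;> simp <;> ring
  rw [e, show 2 * ((deriv b (‖f ζ‖ ^ 2) : ℝ) : ℂ) * (f ζ * (starRingEnd ℂ) f') * (f' / f ζ) =
    2 * deriv b (‖f ζ‖ ^ 2) * (f' * (starRingEnd ℂ) f') by field_simp, Complex.mul_conj']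
  norm_cast

theorem Amb.dF_far {Λ : Form1 E} {J : E → E →L[ℝ] E} {K : Set E} (hA : Amb Λ J K) {x : E}
    (hx : x ∉ K) (u v : E) : dF Λ x u v = om u v := by
  have : Λ =ᶠ[𝓝 x] lam0 := (hA.cpt.isClosed.isOpen_compl.eventually_mem hx).mono hA.farΛ
  rw [← dF_lam0 x, dF_apply, dF_apply, this.fderiv_eq]

theorem wn_near_id {f : ℂ → ℂ} {χ : ℂ → ℝ} (hχ : Bmp χ) {U : Set ℂ} (hU : HolN U f)
    (hK : Kd χ ⊆ U) (h1 : ∀ ζ ∈ U, ‖f ζ - ζ‖ < ‖ζ‖) : wn χ f = χ 0 := by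
  have z0 : ∀ ζ ∈ U, ζ ≠ 0 := fun ζ hζ => norm_pos_iff.mp ((norm_nonneg _).trans_lt (h1 ζ hζ))
  have d : DifferentiableOn ℂ (fun ζ => f ζ / ζ) U := hU.hol.div differentiableOn_id z0
  have n : ∀ ζ ∈ U, f ζ / ζ ≠ 0 := fun ζ hζ => div_ne_zero (hU.ne ζ hζ) (z0 ζ hζ)
  rw [wn_congr (g := fun ζ => (ζ - 0) * (f ζ / ζ)) hU.op hK fun ζ hζ => by
      simp only [sub_zero, mul_div_cancel₀ _ (z0 ζ hζ)],
    wn_mul hχ ⟨hU.op, by fun_prop, fun ζ hζ => by simpa using z0 ζ hζ⟩ ⟨hU.op, d, n⟩ hK, wn_lin hχ,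
    wn_exp hχ hU.op hK (d.clog fun ζ hζ => ?_) fun ζ hζ => (Complex.exp_log (n ζ hζ)).symm,
    add_zero]
  have : f ζ / ζ = 1 + (f ζ - ζ) / ζ := by
    have := z0 ζ hζ
    field_simp
    ring
  rw [this]
  refine Complex.mem_slitPlane_of_norm_lt_one ?_
  rw [norm_div]
  exact (div_lt_one (norm_pos_iff.mpr (z0 ζ hζ))).mpr (h1 ζ hζ)

/-- The pulled back form minus `b (‖w‖ ^ 2) d arg w`. -/
theorem Leaf.exists_form {Λ : Form1 E} {J : E → E →L[ℝ] E} {K : Set E} (hA : Amb Λ J K)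
    {R0 R1 : ℝ} (h0 : 0 < R0) (h1 : R0 < R1) (hK : ∀ x ∈ K, ‖x.1‖ < R0) {u : ℂ → E} {c : ℂ}
    (h : Leaf J u c) : ∃ P Q : ℂ → ℝ, ContDiff ℝ ∞ P ∧ ContDiff ℝ ∞ Q ∧
      (∀ ζ, 0 ≤ px Q ζ - py P ζ) ∧ (∀ ζ, ‖(u ζ).1‖ < R0 → px Q ζ - py P ζ = dens Λ u ζ) ∧
      ∀ ζ, R1 ≤ ‖(u ζ).1‖ → (Q ζ : ℂ) + P ζ * Complex.I =
        (R1 ^ 2 / 2 : ℝ) * (deriv (fun ζ => (u ζ).1) ζ / (u ζ).1) +
          (starRingEnd ℂ) (u ζ).2 * (deriv u ζ).2 / 2 := by
  obtain ⟨b, b1, b2, b3, b4⟩ := exists_profile (pow_lt_pow_left₀ h1 h0.le two_ne_zero)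
  have us := h.sm
  have uc := us.continuous
  set f : ℂ → ℂ := fun ζ => (u ζ).1 with hf
  set φ : ℂ → ℝ := fun ζ => b (‖f ζ‖ ^ 2) with hφ
  have φs : ContDiff ℝ ∞ φ := b1.comp (us.fst.norm_sq ℝ)
  have far : ∀ ζ, u ζ ∉ K → HasDerivAt u (px u ζ) ζ := fun ζ hζ => h.hasDerivAt (hA.farJ _ hζ)
  have hU : HolN {ζ | u ζ ∉ K ∧ f ζ ≠ 0} f :=
    ⟨(hA.cpt.isClosed.isOpen_compl.preimage uc).inter (isOpen_ne.preimage uc.fst),
      fun ζ hζ => (far ζ hζ.1).differentiableAt.fst.differentiableWithinAt, fun ζ hζ => hζ.2⟩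
  have mem : ∀ ζ, R0 ≤ ‖f ζ‖ → ζ ∈ {ζ | u ζ ∉ K ∧ f ζ ≠ 0} := fun ζ hζ =>
    ⟨fun hm => (hK _ hm).not_ge hζ, norm_pos_iff.mp (h0.trans_le hζ)⟩
  have zero : ∀ (g : ℂ → ℝ) ζ, ‖f ζ‖ < R0 → (fun ζ => φ ζ * g ζ) =ᶠ[𝓝 ζ] fun _ => 0 :=
    fun g ζ hζ => by
      filter_upwards [uc.fst.norm.continuousAt.eventually_lt continuousAt_const hζ] with s hs
      rw [show φ s = 0 from b2 _ (by gcongr), zero_mul]
  have sm : ∀ L : ℂ →L[ℝ] ℝ, ContDiff ℝ ∞ fun ζ => φ ζ * L (deriv f ζ / f ζ) := fun L =>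
    contDiff_iff_contDiffAt.mpr fun ζ => by
      rcases lt_or_ge ‖f ζ‖ R0 with hζ | hζ
      · exact contDiffAt_const.congr_of_eventuallyEq (zero _ ζ hζ)
      · exact φs.contDiffAt.mul (L.contDiff.contDiffAt.comp ζ
          (((hU.logd.analyticAt (hU.op.mem_nhds (mem ζ hζ))).contDiffAt).restrict_scalars ℝ))
  have s1 : ContDiff ℝ ∞ fun ζ => φ ζ * (deriv f ζ / f ζ).im := sm Complex.imCLM
  have s2 : ContDiff ℝ ∞ fun ζ => φ ζ * (deriv f ζ / f ζ).re := sm Complex.reCLM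
  have du : ContDiff ℝ ∞ (fderiv ℝ u) := us.fderiv_right le_rfl
  have s3 : ContDiff ℝ ∞ fun ζ => Λ (u ζ) (px u ζ) :=
    (hA.smΛ.comp us).clm_apply (du.clm_apply contDiff_const)
  have s4 : ContDiff ℝ ∞ fun ζ => Λ (u ζ) (py u ζ) :=
    (hA.smΛ.comp us).clm_apply (du.clm_apply contDiff_const)
  have curl : ∀ ζ, px (fun ζ => Λ (u ζ) (py u ζ) - φ ζ * (deriv f ζ / f ζ).re) ζ -
      py (fun ζ => Λ (u ζ) (px u ζ) - φ ζ * (deriv f ζ / f ζ).im) ζ = dens Λ u ζ -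
      (px (fun ζ => φ ζ * (deriv f ζ / f ζ).re) ζ - py (fun ζ => φ ζ * (deriv f ζ / f ζ).im) ζ) :=
    fun ζ => by
      rw [← dens_eq (hA.smΛ.differentiable (by simp) _) (us.contDiffAt.of_le (by norm_cast))]
      simp only [px, py] at s3 s4 ⊢
      rw [fderiv_fun_sub (s4.differentiable (by simp) ζ) (s2.differentiable (by simp) ζ),
        fderiv_fun_sub (s3.differentiable (by simp) ζ) (s1.differentiable (by simp) ζ)]
      simp only [sub_apply]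
      ring
  have ins : ∀ ζ, ‖f ζ‖ < R0 → px (fun ζ => φ ζ * (deriv f ζ / f ζ).re) ζ -
      py (fun ζ => φ ζ * (deriv f ζ / f ζ).im) ζ = 0 := fun ζ hζ => by
    rw [px, py, (zero _ ζ hζ).fderiv_eq, (zero _ ζ hζ).fderiv_eq]
    simp
  have df : ∀ ζ, u ζ ∉ K → HasDerivAt f (px u ζ).1 ζ := fun ζ hζ =>
    (ContinuousLinearMap.fst ℂ ℂ ℂ).hasFDerivAt.comp_hasDerivAt ζ (far ζ hζ)
  have cr : ∀ ζ, u ζ ∉ K → py u ζ = Complex.I • px u ζ := fun ζ hζ =>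
    (cr_of_hasDerivAt (far ζ hζ)).2
  refine ⟨_, _, s3.sub s1, s4.sub s2, fun ζ => ?_, fun ζ hζ => by rw [curl, ins ζ hζ, sub_zero],
    fun ζ hζ => ?_⟩
  · rw [curl]
    rcases lt_or_ge ‖f ζ‖ R0 with hζ | hζ
    · rw [ins ζ hζ, sub_zero, dens, (h.hol ζ trivial).1]
      rcases eq_or_ne (px u ζ) 0 with e | e
      · simp [e]
      · exact (hA.tame _ _ e).le
    · have m := mem ζ hζ
      rw [curl_mul hU φs.contDiffOn m, (df ζ m.1).deriv,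
        gr_comp_normSq (b1.differentiable (by simp)) (df ζ m.1) m.2, dens, hA.dF_far m.1, cr ζ m.1]
      have e : om (px u ζ) (Complex.I • px u ζ) = ‖(px u ζ).1‖ ^ 2 + ‖(px u ζ).2‖ ^ 2 := by
        simp [om, w1, Complex.sq_norm, Complex.normSq_apply]
      rw [e]
      nlinarith [b4 (‖f ζ‖ ^ 2), sq_nonneg ‖(px u ζ).1‖, sq_nonneg ‖(px u ζ).2‖]
  · have m := mem ζ (h1.le.trans hζ)
    have e1 : φ ζ = (‖f ζ‖ ^ 2 - R1 ^ 2) / 2 := b3 _ (by gcongr; linarith)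
    have e2 : (px u ζ).1 = f ζ * (deriv f ζ / f ζ) := by
      rw [(df ζ m.1).deriv, mul_div_cancel₀ _ m.2]
    rw [hA.farΛ _ m.1, lam0_apply, lam0_apply, cr ζ m.1, e1, (far ζ m.1).deriv]
    simp only [om, w1, Prod.smul_fst, Prod.smul_snd, smul_eq_mul, e2, Complex.sq_norm,
      Complex.normSq_apply]
    change _ = _ * (deriv f ζ / f ζ) + _
    generalize deriv f ζ / f ζ = w
    apply Complex.ext <;> simp [hf, -Complex.ofReal_pow] <;> ring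

theorem Leaf.energy {Λ : Form1 E} {J : E → E →L[ℝ] E} {K : Set E} (hA : Amb Λ J K) {R0 R1 : ℝ}
    (h0 : 0 < R0) (h1 : R0 < R1) (hK : ∀ x ∈ K, ‖x.1‖ < R0) {u : ℂ → E} {c : ℂ} (h : Leaf J u c) :
    IntegrableOn (dens Λ u) {ζ | ‖(u ζ).1‖ < R0} ∧
      ∫ ζ in {ζ | ‖(u ζ).1‖ < R0}, dens Λ u ζ ≤ π * R1 ^ 2 := by
  obtain ⟨P, Q, sP, sQ, nn, e1, e2⟩ := h.exists_form hA h0 h1 hK
  obtain ⟨C, R, r0, hd⟩ := h.decay hA.cpt hA.farJ
  obtain ⟨M, M0, hM⟩ := exists_cut_scale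
  have uc := h.sm.continuous
  obtain ⟨R', r1, hR'⟩ := exists_radius ((h.tendsto_fst.eventually_ge_atTop R1).and
    ((h.lim.eventually (ball_mem_nhds 0 one_pos)).and
      ((tendsto_norm_cocompact_atTop (E := ℂ)).eventually_ge_atTop (max R 1))))
  have hS : IsOpen {ζ | ‖(u ζ).1‖ < R0} := isOpen_lt uc.fst.norm continuous_const
  have hb : {ζ | ‖(u ζ).1‖ < R0} ⊆ ball 0 R' := fun ζ hζ =>
    mem_ball_zero_iff.mpr (lt_of_not_ge fun a => (hR' ζ a).1.not_gt (lt_trans hζ h1))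
  have cμ : Continuous fun ζ => px Q ζ - py P ζ :=
    ((sQ.continuous_fderiv (by simp)).clm_apply continuous_const).sub
      ((sP.continuous_fderiv (by simp)).clm_apply continuous_const)
  have iμ : IntegrableOn (fun ζ => px Q ζ - py P ζ) {ζ | ‖(u ζ).1‖ < R0} :=
    (cμ.continuousOn.integrableOn_compact (isCompact_closedBall 0 R')).mono_set
      (hb.trans ball_subset_closedBall)
  refine ⟨iμ.congr_fun e1 hS.measurableSet, ?_⟩
  rw [← setIntegral_congr_fun hS.measurableSet e1]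
  have hU : IsOpen {ζ : ℂ | R' < ‖ζ‖} := isOpen_lt continuous_const continuous_norm
  have du : DifferentiableOn ℂ u {ζ : ℂ | R' < ‖ζ‖} := fun ζ hζ =>
    (hd ζ ((le_max_left _ _).trans (hR' ζ (le_of_lt hζ)).2.2)).1.differentiableWithinAt
  have hf : HolN {ζ : ℂ | R' < ‖ζ‖} fun ζ => (u ζ).1 := ⟨hU, du.fst, fun ζ hζ =>
    norm_pos_iff.mp ((h0.trans h1).trans_le (hR' ζ (le_of_lt hζ)).1)⟩
  have C0 : 0 ≤ C := by
    have a := (norm_nonneg _).trans (hd R (by simp [abs_of_pos r0])).2.1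
    rw [Complex.norm_real, Real.norm_of_nonneg r0.le] at a
    simpa using (le_div_iff₀ r0).mp a
  have key : ∀ ρ, R' < ρ → ∫ ζ in {ζ | ‖(u ζ).1‖ < R0}, (px Q ζ - py P ζ) ≤
      π * R1 ^ 2 + 2 * π * M * (‖c‖ + 1) * C / ρ := fun ρ hρ => by
    have ρ0 := r1.trans hρ
    obtain ⟨χ, c1, c2, c3, c4, c5⟩ := hM ρ ρ0
    have kd : Kd χ ⊆ {ζ : ℂ | R' < ‖ζ‖} := fun ζ hζ => hρ.trans_le (c4 ζ hζ).1
    have a1 : ∫ ζ in {ζ | ‖(u ζ).1‖ < R0}, (px Q ζ - py P ζ) ≤ ∫ ζ, χ ζ * (px Q ζ - py P ζ) := by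
      rw [← setIntegral_congr_fun (f := fun ζ => χ ζ * (px Q ζ - py P ζ)) hS.measurableSet
        fun ζ hζ => by simp only [c3 ζ ((mem_ball_zero_iff.mp (hb hζ)).trans hρ), one_mul]]
      exact setIntegral_le_integral ((c1.sm.continuous.mul cμ).integrable_of_hasCompactSupport
        c1.cpt.mul_right) (ae_of_all _ fun ζ => mul_nonneg (c2 ζ) (nn ζ))
    have i1 := (c1.integrable_gr hU kd hf.logd.continuousOn).re
    have i2 := (c1.integrable_gr hU kd (g := fun ζ => (starRingEnd ℂ) (u ζ).2 * (deriv u ζ).2 / 2)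
      (((Complex.continuous_conj.comp uc.snd).continuousOn.mul
        (du.deriv hU).continuousOn.snd).div_const 2)).re
    simp only [RCLike.re_to_complex] at i1 i2
    have a2 : ∀ ζ, px χ ζ * Q ζ - py χ ζ * P ζ =
        R1 ^ 2 / 2 * (gr χ ζ * (deriv (fun ζ => (u ζ).1) ζ / (u ζ).1)).re +
          (gr χ ζ * ((starRingEnd ℂ) (u ζ).2 * (deriv u ζ).2 / 2)).re := fun ζ => by
      have : px χ ζ * Q ζ - py χ ζ * P ζ = (gr χ ζ * (Q ζ + P ζ * Complex.I)).re := by simp [gr]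
      rw [this]
      by_cases hζ : ζ ∈ Kd χ
      · rw [e2 ζ (hR' ζ (le_of_lt (kd hζ))).1, mul_add, Complex.add_re, mul_left_comm,
          Complex.re_ofReal_mul]
      · simp [gr_eq_zero hζ]
    have a3 : wn χ (fun ζ => (u ζ).1) = 1 := by
      rw [wn_near_id c1 hf kd fun ζ hζ => ?_, c3 0 (by simpa using ρ0)]
      obtain ⟨-, b1, b2⟩ := hR' ζ (le_of_lt hζ)
      exact ((norm_fst_le (u ζ - (ζ, c))).trans_lt (mem_ball_zero_iff.mp b1)).trans_le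
        ((le_max_right _ _).trans b2)
    have a4 : ‖∫ ζ, (gr χ ζ * ((starRingEnd ℂ) (u ζ).2 * (deriv u ζ).2 / 2)).re‖ ≤
        M / ρ * ((‖c‖ + 1) * (C / ρ ^ 2) / 2) * (volume : Measure ℂ).real (closedBall 0 (2 * ρ)) := by
      rw [← setIntegral_eq_integral_of_forall_compl_eq_zero (s := closedBall 0 (2 * ρ))
        fun ζ hζ => by simp [gr_eq_zero fun a => hζ (mem_closedBall_zero_iff.mpr (c4 ζ a).2)]]
      refine norm_setIntegral_le_of_norm_le_const measure_closedBall_lt_top fun ζ _ => ?_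
      by_cases hζ : ζ ∈ Kd χ
      · obtain ⟨-, b1, b2⟩ := hR' ζ (le_of_lt (kd hζ))
        have b3 : ‖(u ζ).2‖ ≤ ‖c‖ + 1 := by
          have := (norm_snd_le (u ζ - (ζ, c))).trans_lt (mem_ball_zero_iff.mp b1)
          simp only [Prod.snd_sub] at this
          linarith [norm_sub_norm_le (u ζ).2 c]
        have b4 : ‖(deriv u ζ).2‖ ≤ C / ρ ^ 2 := by
          have := (norm_snd_le _).trans (hd ζ ((le_max_left _ _).trans b2)).2.2
          simp only [Prod.snd_sub, sub_zero] at this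
          exact this.trans (by gcongr; exact (c4 ζ hζ).1)
        refine (Complex.abs_re_le_norm _).trans ?_
        rw [norm_mul, norm_div, norm_mul, Complex.norm_conj, Complex.norm_two]
        gcongr
        exact c5 ζ
      · simp only [gr_eq_zero hζ, zero_mul, Complex.zero_re, norm_zero]
        positivity
    have a5 : (volume : Measure ℂ).real (closedBall 0 (2 * ρ)) = π * (2 * ρ) ^ 2 := by
      rw [Measure.real, Complex.volume_closedBall, ENNReal.toReal_mul, ENNReal.toReal_pow,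
        ENNReal.toReal_ofReal (by positivity), ENNReal.coe_toReal, NNReal.coe_real_pi, mul_comm]
    have a6 : M / ρ * ((‖c‖ + 1) * (C / ρ ^ 2) / 2) * (π * (2 * ρ) ^ 2) =
        2 * π * M * (‖c‖ + 1) * C / ρ := by field_simp
    rw [a5, a6] at a4
    refine a1.trans ?_
    rw [green_cut c1 isOpen_univ (subset_univ _) (sP.of_le (by simp)).contDiffOn
      (sQ.of_le (by simp)).contDiffOn, funext a2, integral_add (i1.const_mul _) i2,
      integral_const_mul]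
    rw [wn, neg_mul, neg_eq_iff_eq_neg, inv_mul_eq_iff_eq_mul₀ (by positivity)] at a3
    rw [a3]
    linarith [neg_abs_le (∫ ζ, (gr χ ζ * ((starRingEnd ℂ) (u ζ).2 * (deriv u ζ).2 / 2)).re),
      Real.norm_eq_abs (∫ ζ, (gr χ ζ * ((starRingEnd ℂ) (u ζ).2 * (deriv u ζ).2 / 2)).re)]
  have lim : Tendsto (fun ρ : ℝ => π * R1 ^ 2 + 2 * π * M * (‖c‖ + 1) * C / ρ) atTop
      (𝓝 (π * R1 ^ 2 + 0)) := (tendsto_const_nhds.div_atTop tendsto_id).const_add _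
  rw [add_zero] at lim
  exact ge_of_tendsto lim ((eventually_gt_atTop R').mono key)

end Pool.Agent.Lib.MP_7ed551_gt.Cy
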